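import Pool.Agent.J4.H93.WK.RI
import Pool.Agent.J4.H93.WS.WS1

/-!
# Iitaka's inequality for all fibrations of all components, for all large tuples of monomials of generic shape

Let `I 1, …, I s` be nonempty sets of the variables `x_0, …, x_n`. We consider tuples `a` of exponent vectors `a i` of degree `d`
in the variables from `I i`. The shape of a tuple is the point `z` with the coordinates `z i j = a i j / d`. A shape is generic
(`GenericShape I z`) if its coordinates with `j` in `I i` are not zero and if `n` differences of points among the `z i` and the
vertices of the simplex (the shapes of the `x_j ^ d`) are linearly independent whenever this is possible with the given sets `I i`.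
So the shapes that are not generic lie on finitely many hypersurfaces, the zeros of determinants.

**Theorem.** Let `K` be a compact set of generic shapes. There are `δ > 0` and `d₀` such that for all `d ≥ d₀` and ALL tuples `a`
of degree `d` whose shape has distance at most `δ` from `K`: `IitakaComponents F` for all complex projective varieties
`X = {F = 0}` given by any number of linear combinations, with any coefficients, of the monomials with the exponent vectors `a i`
and of the `x_j ^ d`. This means: let `V` be any irreducible component of positive dimension of `X`, let `V ⇢ Z` be any dominant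
rational map to any variety, with geometric generic fibre `G`. Then `κ(V) ≥ κ(G) + κ(Z)`; moreover, if `κ(G) ≥ 0` and `κ(Z) ≥ 0`
then `V` is of general type.
-/

set_option autoImplicit false

namespace Pool.Agent.Results.MP_f72953_ag.GenericShapes

open Pool.Agent.J4.H93.WS Pool.Agent.J4.H93.WK.RI Pool.Agent.R869.Wd

theorem result {n s : ℕ} (I : Fin s → Finset (Fin (n + 1))) (hI : ∀ i, (I i).Nonempty)
    (K : Set (Fin s → Fin (n + 1) → ℝ)) (hK : IsCompact K) (hg : ∀ z ∈ K, GenericShape I z) :
    ∃ δ : ℝ, 0 < δ ∧ ∃ d₀ : ℕ, ∀ d : ℕ, d₀ ≤ d → ∀ a ∈ TuplesIn I d,
      (∃ z ∈ K, ∀ i j, |(a i j : ℝ) - d * z i j| ≤ δ * d) →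
        ∀ (ι : Type) (F : ι → MvPolynomial (Fin (n + 1)) ℂ), (∀ e, (F e).support ⊆ withPowers d a) →
          IitakaComponents F := by
  obtain ⟨δ, hδ, d₀, h⟩ := typ_compact hI K hK hg
  refine ⟨δ, hδ, d₀, fun d hd a ha hz ι F hF => ?_⟩
  obtain ⟨s', N, hgood⟩ := (h d hd a ha hz).good
  exact iitaka_of_sys (hgood.sys hF ∅)

end Pool.Agent.Results.MP_f72953_ag.GenericShapes
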