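import Pool.Agent.J4.H19.FC.Main
import Pool.Agent.J4.H18.IT.Gen

/-!
# Iitaka's inequality for all fibrations of the images of fibrations by curves

Let `V` be an arbitrary variety over `ℂ` of dimension `n + 1` and `V ⇢ V' ⊂ ℙ^N` a dominant rational
map to an arbitrary variety of dimension `n`, given by the rational functions `t 1, ..., t N`, with
irreducible general fibres (curves of any genus, any moduli, and any singular fibres). Let `H` be the
hyperplane class of `V'` and `M ≥ 0`, and suppose that the sections of `K_V - M H` generate the
differentials of the fibres. Let `V ⇢ W` be an arbitrary dominant rational map of finite degree; it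
has nothing to do with the fibration. Let `m` be the degree over `W` of the image of `V` in `W × V'`.
(This is the class of varieties `W` of `MP_97d78d_ag.FibrationsByCurves`, where examples are given.)

We prove Iitaka's conjecture for **all** fibrations of `W`: let `g : W ⇢ Z` be a dominant rational
map to a variety of any dimension, with geometric generic fibre `F`. (We do not need that the fibres
are connected: `F` is a component.)

* If `m ≤ M + 1`, `κ(F) ≥ 0` and `κ(Z) ≥ 0` then `κ(W) ≥ 0`.
* If `2 m ≤ M + 1` then `κ(W) ≥ κ(F) + κ(Z)`. Moreover, if `κ(F) ≥ 0` and `κ(Z) ≥ 0` then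
  `κ(W) ≥ dim W - 1`. So `κ(W) ≥ max (κ(F) + κ(Z), dim W - 1)`, and if `F` and `Z` are of general type
  then `W` is.

There is no condition on `g`, on the dimensions, on the moduli of the fibres `F`, on the existence of
minimal models of `F`, and on the irregularity of `W`, `F` or `Z`.

Proof. By the theorems of `Pool/Agent/J4/H19/FC`, `W` is uniruled or `κ(W) ≥ dim W - 1`, and `W` is
of general type or covered by a family of rational or elliptic curves `C` of dimension `dim W - 1`.
The new part is about such families: let `Λ` be the algebraic closure of the function field of the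
base of the family, so that we have a curve `C` over `Λ` and a dominant map to `W`. If the image of
`C` in `Z` is not a point then the pluricanonical forms of `Z` pull back to `C` (the forms are
contracted with the vector field of `C` and with some other vector fields which preserve `Λ`; the
pull-back has no poles along the divisors which dominate the base of the family). So they vanish if
`C` is rational, and if `C` is elliptic then their ratios are constant on `C`, and `Z` is not of
general type. If the image of `C` is a point of `Z` then the algebraic closure of `ℂ(Z)` is contained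
in `Λ`, `C` maps to the geometric generic fibre `F`, and the same argument applies to `F` over the
algebraic closure of `ℂ(Z)`, which is isomorphic to `ℂ` (the dimension of the family is now bigger
than `dim F - 1`, in general). So `κ(F) = -∞` or `κ(Z) = -∞` if `W` is uniruled, and if `W` is covered
by rational or elliptic curves then `F` or `Z` is not of general type, and
`κ(F) + κ(Z) ≤ dim W - 1 ≤ κ(W)`.

`KodGe k L w (fun _ => False) j` says that the variety over `k` of dimension `w` with the function
field `L` has Kodaira dimension at least `j`: for some weight there are pluricanonical forms, regular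
at all prime divisors, with `j` algebraically independent ratios (`Pool/Agent/W602/GT`). We compute
the Kodaira dimension of the geometric generic fibre over the field `Const Z`, the algebraic closure
of `ℂ(Z)`; it is the Kodaira dimension of the general fibres.
-/

set_option autoImplicit false
set_option linter.overlappingInstances false
set_option maxHeartbeats 4000000
set_option synthInstance.maxHeartbeats 400000

open FF Module IntermediateField Pool.Agent Pool.Agent.W602.GT

namespace Pool.Agent.Results.MP_f72953_ag.ImagesOfCurveFibrations

/-- The algebraic closure of the function field `B` of the base, in an algebraic closure of the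
function field `K` of the total space. -/
abbrev Const {K : Type} [Field K] [Algebra ℂ K] (B : IntermediateField ℂ K) : Type :=
  algebraicClosure B (AlgebraicClosure K)

/-- The function field of the geometric generic fibre of the map from the variety with the function
field `K` to the variety with the function field `B`: the compositum of `K` and the algebraic closure
of `B`. -/
abbrev GeometricFibre {K : Type} [Field K] [Algebra ℂ K] (B : IntermediateField ℂ K) : Type :=
  IntermediateField.adjoin (algebraicClosure B (AlgebraicClosure K))
    (Set.range (algebraMap K (AlgebraicClosure K)))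

variable {K : Type} [Field K] [Algebra ℂ K] {n : ℕ}

/-- `ω` is a section of `K_V - M H`, where `V` has dimension `n` and `H` is the pullback of the
hyperplane class under the map given by `1, t_1, ..., t_N`: the forms `A(t) ω`, where `A` is a monomial
of degree at most `M`, are regular canonical forms. -/
def IsTwisted {N : ℕ} (n M : ℕ) (t : Fin N → K) (ω : (Fin n → Derivation ℂ K K) → K) : Prop :=
  IsPluri 1 ω ∧ ∀ a : Fin N → ℕ, ∑ j, a j ≤ M → ∀ P : Place ℂ K, Divisorial n P →
    RegAt P (fun D => (∏ j, t j ^ a j) * ω D)

/-- The restriction to the geometric generic fibre `C` of the rational function `z` on `V`. -/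
noncomputable def restrict (B : IntermediateField ℂ K) (z : K) : GeometricFibre B :=
  ⟨algebraMap K (AlgebraicClosure K) z, IntermediateField.subset_adjoin _ _ ⟨z, rfl⟩⟩

/-- The differential `f dx` of the curve with the function field `F` over `Λ`, where `D = d/dx`, is
regular: at each point `Q` with uniformizer `u`, the function `f dx/du = f / D u` is regular. -/
def IsRegular {Λ F : Type} [Field Λ] [Field F] [Algebra Λ F] (D : Derivation Λ F F) (f : F) :
    Prop :=
  ∀ (Q : Place Λ F) (u : F), Q.ord u = 1 → f = 0 ∨ Q.ord (D u) ≤ Q.ord f

/-- **The restrictions of the forms `ω j` to the geometric generic fibre `C` generate `H⁰(C, K_C)`.**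
Let `x l` be coordinates on `V'` and `ξ` one more coordinate on `V`, and let the `E i` be the dual
vector fields on `V`, so that `ω j = ω j (E) dx_1 ... dx_n dξ`. The restriction of `ω j` to `C` (as a
relative differential) is `ω j (E) dξ`. The condition is that all regular differentials `f dξ` of `C`
are linear combinations of them. -/
def GenerateFibreDifferentials {J : Type} (B : IntermediateField ℂ K)
    (ω : J → (Fin (n + 1) → Derivation ℂ K K) → K) : Prop :=
  ∀ (x : Fin n → K) (ξ : K), (∀ l, x l ∈ B) →
    IsTranscendenceBasis ℂ (Fin.append x (fun _ : Fin 1 => ξ)) →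
    ∀ E : Fin (n + 1) → Derivation ℂ K K,
      (∀ i l, E i (Fin.append x (fun _ : Fin 1 => ξ) l) = if i = l then 1 else 0) →
    ∀ D : Derivation (Const B) (GeometricFibre B) (GeometricFibre B), D (restrict B ξ) = 1 →
    ∀ f : GeometricFibre B, IsRegular D f →
      f ∈ Submodule.span (Const B) (Set.range fun j => restrict B (ω j E))

/-- **Iitaka's inequality for all fibrations of the images of fibrations by curves.** Let `V` be a
variety of dimension `n + 1` with function field `K`, and `V ⇢ V'` the map to a variety of dimension
`n` given by the rational functions `t l`, with irreducible general fibres (`hcl`). Suppose that there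
are sections `ω j` of `K_V - M H` whose restrictions to the geometric generic fibre generate its
regular differentials. Let `V ⇢ W` be a dominant rational map of finite degree, `L` the function field
of `W`, and `m` the degree over `W` of the image of `V` in `W × V'`. Let `W ⇢ Z` be any dominant
rational map, given by the subfield `Z` of `L`, and let `F` be its geometric generic fibre,
`dim Z = b`, `dim F = f`.
If `m ≤ M + 1`, `κ(F) ≥ 0` and `κ(Z) ≥ 0` then `κ(W) ≥ 0`. If `2 m ≤ M + 1`, `κ(F) ≥ i` and
`κ(Z) ≥ j` for numbers `i, j ≥ 0` then `κ(W) ≥ i + j` and `κ(W) ≥ n = dim W - 1`. -/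
theorem result [Algebra.EssFiniteType ℂ K] {N M : ℕ} (hK : Algebra.trdeg ℂ K = (n + 1 : ℕ))
    {t : Fin N → K} (ht : Algebra.trdeg ℂ (IntermediateField.adjoin ℂ (Set.range t)) = n)
    (hcl : ∀ g : K, IsAlgebraic (IntermediateField.adjoin ℂ (Set.range t)) g →
      g ∈ IntermediateField.adjoin ℂ (Set.range t))
    {J : Type} [Finite J] {ω : J → (Fin (n + 1) → Derivation ℂ K K) → K}
    (hω : ∀ j, IsTwisted (n + 1) M t (ω j))
    (hgen : GenerateFibreDifferentials (IntermediateField.adjoin ℂ (Set.range t)) ω)
    (L : Type) [Field L] [Algebra ℂ L] [Algebra L K] [IsScalarTower ℂ L K]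
    [FiniteDimensional L K] (Z : IntermediateField ℂ L) (b f : ℕ)
    (hZ : Algebra.trdeg ℂ Z = b) (hf : Algebra.trdeg Z L = f) :
    (finrank L (IntermediateField.adjoin L (Set.range t)) ≤ M + 1 →
      KodGe (Const Z) (GeometricFibre Z) f (fun _ => False) 0 →
      KodGe ℂ Z b (fun _ => False) 0 → KodGe ℂ L (n + 1) (fun _ => False) 0) ∧
    (2 * finrank L (IntermediateField.adjoin L (Set.range t)) ≤ M + 1 →
      ∀ i j : ℕ, KodGe (Const Z) (GeometricFibre Z) f (fun _ => False) i →
        KodGe ℂ Z b (fun _ => False) j →
        KodGe ℂ L (n + 1) (fun _ => False) (i + j) ∧ KodGe ℂ L (n + 1) (fun _ => False) n) := by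
  have hL : Algebra.trdeg ℂ L = (n + 1 : ℕ) := Pool.Agent.Y184.NT.trdeg_below (K := K) hK
  have hessL : Algebra.EssFiniteType ℂ L := Pool.Agent.TH466.QG.ess_below (K := K)
  obtain ⟨h1, h2⟩ := J4.H19.FC.main (L := L) hK ht hcl hω hgen
  refine ⟨fun hm hF hB => ?_, fun hm i j hF hB => ?_⟩
  · have hu := J4.H18.IT.not_uniruled_of_fib hL Z hZ hf hF hB
    by_contra hcon
    exact hu (((h1 hm).out 1 3).1 hcon)
  · have hu := J4.H18.IT.not_uniruled_of_fib hL Z hZ hf hF hB
    obtain ⟨h3, h4, -⟩ := h2 hm
    have a2 : ¬ W619.PQ.IsUniruled ℂ L (n + 1) → KodGe ℂ L (n + 1) (fun _ => False) n :=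
      (h3.out 2 1).1
    have a3 : ¬ N145.SX.Cov1 L n → KodGe ℂ L (n + 1) (fun _ => False) (n + 1) :=
      (h4.out 2 0).1
    exact ⟨J4.H18.IT.iitaka_abs hL a2 a3 Z hZ hf hF hB, a2 hu⟩

end Pool.Agent.Results.MP_f72953_ag.ImagesOfCurveFibrations
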