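import Pool.Agent.N145.SX.MFin
import Pool.Agent.J4.H18.IT.Gen

/-!
# Iitaka's inequality for all fibrations of the varieties dominated by a product of varieties and a curve

Let `V = X 0 × ... × X (k - 1) × C`, where the `X i` are smooth projective varieties over `ℂ` of
dimension `m i` and `C` is a smooth projective curve of any genus. Let `V ⇢ W` be a dominant rational
map of finite degree to a variety `W`. It need not be related to the product structure, and it need not
be the quotient by a group. Let `W_i` be the image of `V` in `W × X 0 × ... × X (i - 1)`, and let
`d i` be the degree over `W_i` of the image of `V` in `W_i × X i`. Suppose that for all `i` the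
canonical forms of `X i` separate `2 d i` general points; for example, `X i` is a smooth hypersurface
of degree at least `m i + 1 + 2 d i` in projective space, or a curve of gonality greater than `2 d i`.
(This is the class of varieties `W` of `MP_97d78d_ag.ProductsOfVarieties`.)

We prove Iitaka's conjecture for **all** fibrations of `W`: let `g : W ⇢ Z` be a dominant rational
map to a variety of any dimension, with geometric generic fibre `F`. (We do not need that the fibres
are connected: `F` is a component.) Then `κ(W) ≥ κ(F) + κ(Z)`. Moreover, if `κ(F) ≥ 0` and
`κ(Z) ≥ 0` then `κ(W) ≥ dim W - 1`. So `κ(W) ≥ max (κ(F) + κ(Z), dim W - 1)`, and if `F` and `Z` are of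
general type then `W` is.

The map `g` has nothing to do with the product structure, and there is no condition on the moduli of
the fibres `F`, on the existence of minimal models of `F`, and on the irregularity of `W`, `F` or `Z`.

Proof. By the theorems of `Pool/Agent/N145/SX`, `W` is uniruled or `κ(W) ≥ dim W - 1`, and `W` is
of general type or covered by a family of rational or elliptic curves `C'` of dimension `dim W - 1`.
The new part is about such families: let `Λ` be the algebraic closure of the function field of the
base of the family, so that we have a curve `C'` over `Λ` and a dominant map to `W`. If the image of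
`C'` in `Z` is not a point then the pluricanonical forms of `Z` pull back to `C'` (the forms are
contracted with the vector field of `C'` and with some other vector fields which preserve `Λ`; the
pull-back has no poles along the divisors which dominate the base of the family). So they vanish if
`C'` is rational, and if `C'` is elliptic then their ratios are constant on `C'`, and `Z` is not of
general type. If the image of `C'` is a point of `Z` then the algebraic closure of `ℂ(Z)` is contained
in `Λ`, `C'` maps to the geometric generic fibre `F`, and the same argument applies to `F` over the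
algebraic closure of `ℂ(Z)`, which is isomorphic to `ℂ`. So `κ(F) = -∞` or `κ(Z) = -∞` if `W` is
uniruled, and if `W` is covered by rational or elliptic curves then `F` or `Z` is not of general type,
and `κ(F) + κ(Z) ≤ dim W - 1 ≤ κ(W)`.

`KodGe k L w (fun _ => False) j` says that the variety over `k` of dimension `w` with the function
field `L` has Kodaira dimension at least `j`: for some weight there are pluricanonical forms, regular
at all prime divisors, with `j` algebraically independent ratios (`Pool/Agent/W602/GT`). We compute
the Kodaira dimension of the geometric generic fibre over the field `Const Z`, the algebraic closure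
of `ℂ(Z)`; it is the Kodaira dimension of the general fibres.
-/

set_option autoImplicit false
set_option linter.overlappingInstances false
set_option maxHeartbeats 4000000
set_option synthInstance.maxHeartbeats 400000

open FF Module Pool.Agent Pool.Agent.W602.GT

namespace Pool.Agent.Results.MP_f72953_ag.ImagesOfProducts

/-- **The canonical forms separate `r` general points.** `E` is the function field of a variety `X` of
dimension `m`, and `D` a rational frame of the tangent bundle. The embeddings `σ : E → Ω` are the
generic points of `X` with coordinates in the field `Ω`. At most `r` different such points impose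
independent conditions on the canonical forms `ω` which are regular at all prime divisors: if
`∑ c σ * σ (ω D) = 0` for all `ω` then all the coefficients `c σ` are zero. -/
def SeparatesPoints (E : Type) [Field E] [Algebra ℂ E] (m r : ℕ) : Prop :=
  ∀ D : Fin m → Derivation ℂ E E, LinearIndependent E D →
    ∀ (Ω : Type) [Field Ω] [Algebra ℂ Ω] [IsAlgClosed Ω] (A : Finset (E →ₐ[ℂ] Ω)), A.card ≤ r →
    ∀ c : (E →ₐ[ℂ] Ω) → Ω,
    (∀ ω : (Fin m → Derivation ℂ E E) → E, IsPluri 1 ω →
      (∀ P : Place ℂ E, Divisorial m P → RegAt P ω) → ∑ σ ∈ A, c σ * σ (ω D) = 0) →
    ∀ σ ∈ A, c σ = 0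

variable {K : Type} [Field K] [Algebra ℂ K] {k : ℕ}

/-- The function field of the image `W_i` of `V` in the product of `W` and the first `i` factors.
Here `K` and `L` are the function fields of `V` and `W`, and `F l` is the one of the `l`-th
factor. -/
noncomputable def Img (F : Fin (k + 1) → IntermediateField ℂ K) (L : Type) [Field L] [Algebra L K]
    (i : ℕ) : IntermediateField L K :=
  IntermediateField.adjoin L {z | ∃ l : Fin (k + 1), l.val < i ∧ z ∈ F l}

/-- The degree over `W_i` of the image of `V` in the product of `W_i` and the `i`-th factor. -/
noncomputable def deg (F : Fin (k + 1) → IntermediateField ℂ K) (L : Type) [Field L] [Algebra L K]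
    (i : Fin (k + 1)) : ℕ :=
  finrank (Img F L i) (IntermediateField.adjoin (Img F L i) (F i : Set K))

theorem deg_eq (F : Fin (k + 1) → IntermediateField ℂ K) (L : Type) [Field L] [Algebra ℂ L]
    [Algebra L K] [IsScalarTower ℂ L K] [FiniteDimensional L K] (i : Fin (k + 1)) :
    deg F L i = finrank (N145.PC.MF F L (N145.PC.Js (k + 1) i))
      (IntermediateField.adjoin (N145.PC.MF F L (N145.PC.Js (k + 1) i)) (F i : Set K)) := by
  unfold deg Img
  rw [N145.SX.mf_eq]

/-- The algebraic closure of the function field `B` of the base of a fibration, in an algebraic
closure of the function field `L` of the total space. -/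
abbrev Const {L : Type} [Field L] [Algebra ℂ L] (B : IntermediateField ℂ L) : Type :=
  algebraicClosure B (AlgebraicClosure L)

/-- The function field of the geometric generic fibre of the map from the variety with the function
field `L` to the variety with the function field `B`: the compositum of `L` and the algebraic closure
of `B`. -/
abbrev GeometricFibre {L : Type} [Field L] [Algebra ℂ L] (B : IntermediateField ℂ L) : Type :=
  IntermediateField.adjoin (algebraicClosure B (AlgebraicClosure L))
    (Set.range (algebraMap L (AlgebraicClosure L)))

/-- **Iitaka's inequality for all fibrations of the varieties dominated by a product.** Let `K` be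
the function field of the product `V` of the varieties with the function fields `F i`, `i < k`, of
dimension `m i`, and of the curve with the function field `F k`, i.e. `K` is the compositum and its
transcendence degree is `∑ m i + 1`. Let `L ⊆ K` be the function field of a variety `W` such that the
extension is finite. Suppose that for all `i < k` the canonical forms of the `i`-th variety separate
`2 d i` general points, where `d i` is the degree over `W_i` of the image of `V` in the product of
`W_i` and this variety. Let `W ⇢ Z` be any dominant rational map, given by the subfield `Z` of `L`,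
and let `G` be its geometric generic fibre, `dim Z = b`, `dim G = f`. If `κ(G) ≥ i` and `κ(Z) ≥ j` for
numbers `i, j ≥ 0` then `κ(W) ≥ i + j` and `κ(W) ≥ ∑ m i = dim W - 1`. -/
theorem result [Algebra.EssFiniteType ℂ K] (m : Fin k → ℕ)
    (F : Fin (k + 1) → IntermediateField ℂ K) [∀ i, Algebra.EssFiniteType ℂ (F i)]
    [IsFF ℂ (F (Fin.last k))] (hF : ⨆ i, F i = ⊤)
    (hm : ∀ i : Fin k, Algebra.trdeg ℂ (F i.castSucc) = m i)
    (hK : Algebra.trdeg ℂ K = (∑ i, m i + 1 : ℕ)) (L : Type) [Field L] [Algebra ℂ L]
    [Algebra L K] [IsScalarTower ℂ L K] [FiniteDimensional L K]
    (hX : ∀ i : Fin k, SeparatesPoints (F i.castSucc) (m i) (2 * deg F L i.castSucc))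
    (Z : IntermediateField ℂ L) (b f : ℕ) (hZ : Algebra.trdeg ℂ Z = b)
    (hf : Algebra.trdeg Z L = f) (i j : ℕ)
    (hG : KodGe (Const Z) (GeometricFibre Z) f (fun _ => False) i)
    (hj : KodGe ℂ Z b (fun _ => False) j) :
    KodGe ℂ L (∑ i, m i + 1) (fun _ => False) (i + j) ∧
      KodGe ℂ L (∑ i, m i + 1) (fun _ => False) (∑ i, m i) := by
  have hL : Algebra.trdeg ℂ L = (∑ i, m i + 1 : ℕ) := Pool.Agent.Y184.NT.trdeg_below (K := K) hK
  have hessL : Algebra.EssFiniteType ℂ L := Pool.Agent.TH466.QG.ess_below (K := K)
  choose x D hx hD using fun i : Fin k => Pool.Agent.Y172.exists_crd (hm i)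
  obtain ⟨h3, h4, -⟩ := N145.SX.multi_all (L := L) hF hm hK hx
    (g := fun i => 2 * deg F L i.castSucc + 1)
    (fun i => N145.SX.sepX_of' (hx i) (hD i) fun Ω _ _ _ A hA c hc =>
      hX i (D i) (N145.SX.dual_indep (hD i)) Ω A hA c hc)
    (fun i => by
      rw [deg_eq]
      exact Nat.lt_succ_self _)
  have hu := J4.H18.IT.not_uniruled_of_fib hL Z hZ hf hG hj
  have a2 : ¬ W619.PQ.IsUniruled ℂ L (∑ i, m i + 1) →
      KodGe ℂ L (∑ i, m i + 1) (fun _ => False) (∑ i, m i) := (h3.out 2 1).1
  have a3 : ¬ N145.SX.Cov1 L (∑ i, m i) →
      KodGe ℂ L (∑ i, m i + 1) (fun _ => False) (∑ i, m i + 1) := (h4.out 2 0).1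
  exact ⟨J4.H18.IT.iitaka_abs hL a2 a3 Z hZ hf hG hj, a2 hu⟩

end Pool.Agent.Results.MP_f72953_ag.ImagesOfProducts
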