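import Pool.Agent.J4.H93.WK.RI

/-!
# Iitaka's inequality for all fibrations of all components of almost all members of all polynomial families of systems of monomials

The exponents of the monomials are any polynomials `A e i j` (form `e`, monomial `i`, variable `j`) with integral coefficients in
`m` parameters `t_1, …, t_m`. We consider the complex projective varieties `X` of any dimension given by forms `F e` with arbitrary
coefficients, such that all exponent vectors which occur in `F e` are among the `A e i (t)`.

**Theorem.** Assume one of the following conditions.
* `NoConstantWidthsR A`: take a set `I` of variables and at most `n` pairs of exponent vectors (of the same form) in the variables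
  from `I`; if the widths of these pairs with respect to a direction `u` with polynomial entries vanish only if `u` is constant on
  `I`, then they are all integers only if `u` is constant on `I`.
* At some integral point, the same for all `e`, the exponent vectors `A e i` of each form `e` coincide: for example, linear forms in
  the parameters such as `t_1 p_i + t_2 q_i + …`, and the family of all the tuples of monomials.

Then, for all parameters `t` outside of a sparse set `E`, `IitakaComponents F` for all these systems of forms: let `V` be any
irreducible component of positive dimension of `X`, let `V ⇢ Z` be any dominant rational map to any variety, with geometric generic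
fibre `G`. Then `κ(V) ≥ κ(G) + κ(Z)`; moreover, if `κ(G) ≥ 0` and `κ(Z) ≥ 0` then `V` is of general type. `E` is sparse: for every
`η > 0` the proportion of the elements of `E` in each product `S_1 × ⋯ × S_m` of sets `S_i ⊆ {0, …, H}` with at least `q` elements is
at most `C H ^ η / q`.

There is no condition on the singularities and on the dimension of `V`, on the coefficients of the forms, and on the map `V ⇢ Z`: no
condition on the moduli of the fibres, on minimal models of the fibres, and on the irregularity of `V`, `G` or `Z`.

Proof. (1) By the results of `Pool/Agent/J4/H93/WS` the systems of forms are wide for all `t` outside of a sparse set. (2) The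
components of wide systems of forms are of general type, or a one-parameter group of diagonal matrices acts on them
(`Pool.Agent.R869.Wd.general_or_ruled`) and they are uniruled, by explicit rational curves (`a1_of_contracts`). (3) A family of
rational curves which covers `V` gives such a family in `G` or in `Z` (`Pool.Agent.J4.H18.IT.not_uniruled_of_fib`).
-/

set_option autoImplicit false

namespace Pool.Agent.Results.MP_f72953_ag.PolynomialFamilies

open MvPolynomial Pool.Agent.J4.H93.WS Pool.Agent.J4.H93.WK.RI Pool.Agent.R869.Wd

/-- For all parameters `t` outside of a sparse set, `IitakaComponents F` for all systems of forms whose exponent vectors are among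
the values `A e i (t)`. -/
theorem result {m n s : ℕ} {ι : Type} [Finite ι] (A : ι → Fin s → Fin (n + 1) → MvPolynomial (Fin m) ℤ)
    (hdeg : ∀ e i i', ∑ j, A e i j = ∑ j, A e i' j)
    (hA : NoConstantWidthsR A ∨ ∃ t₀ : Fin m → ℤ, ∀ e i i' j, eval t₀ (A e i j) = eval t₀ (A e i' j)) :
    Sparse {t : Fin m → ℕ | ¬ ∀ F : ι → MvPolynomial (Fin (n + 1)) ℂ,
      (∀ e, ∀ α ∈ (F e).support, ∃ i, ∀ j, (α j : ℤ) = eval (fun k => (t k : ℤ)) (A e i j)) → IitakaComponents F} := by
  obtain ⟨N, hN⟩ : ∃ N, N = (s + 1) * (n * Pool.Agent.R869.tri (s + 1 - 1)) + 1 := ⟨_, rfl⟩
  refine (wide_several' hdeg hA N).mono fun t ht hcon => ht fun F hF => ?_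
  exact iitaka_of_sys (sys_of_wide (fun e i i' => by rw [← map_sum, ← map_sum, hdeg e i i']) hcon (by omega)
    fun e α hα => mem_expT.2 (hF e α hα))

end Pool.Agent.Results.MP_f72953_ag.PolynomialFamilies
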